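import Pool.Agent.H51.EM.Targets

/-! Row FTF of the board `em_modules`: the family (adapted from Pool/Agent/H34/EI/FTF.lean). -/

set_option autoImplicit false

namespace Pool.Agent.H33.EM.FTF

open Pool.Agent.H51.EM Polynomial Finset
open Pool.Agent.H51.EI (Disc toC ev plen rts vv ResP FR RP FTI phq thq KK KX)
open Pool.Agent.H25.EE (Idx Ix mlt nd s0 s1 hn EX exo gt GG VJ thr phi bN bH)

private lemma thq_le (r : ℕ) (hr : 1 ≤ r) (J : ℕ) (hJ : 1 ≤ J)
    (hlog : 2278 * Real.log r ≤ Real.log J) : thq (r ^ 4) (r * J) ≤ thr J := by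
  have hr0 : (0 : ℝ) < r := by exact_mod_cast hr
  have hJ0 : (0 : ℝ) < J := by exact_mod_cast hJ
  have hlr : 0 ≤ Real.log r := Real.log_nonneg (by exact_mod_cast hr)
  unfold thq thr
  push_cast
  rw [Real.log_mul hr0.ne' hJ0.ne']
  have h1 : 712 / 200000 * ((r : ℝ) * J) ^ 4 / (r : ℝ) ^ 4 = 712 / 200000 * (J : ℝ) ^ 4 := by
    field_simp
  rw [h1]
  have h2 : 0 < (J : ℝ) ^ 4 := by positivity
  have h3 : 712 * (Real.log r + Real.log J) ≤ 713 * Real.log J := by linarith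
  calc 712 / 200000 * (J : ℝ) ^ 4 * (Real.log r + Real.log J)
      = (J : ℝ) ^ 4 / 200000 * (712 * (Real.log r + Real.log J)) := by ring
    _ ≤ (J : ℝ) ^ 4 / 200000 * (713 * Real.log J) := by gcongr
    _ = _ := by ring

private lemma hgt_le (r : ℕ) (hr : 1 ≤ r) (J : ℕ) (hJ : 1 ≤ J)
    (hlog : 2278 * Real.log r ≤ Real.log J) :
    1139 / 1000000000 * ((r * J : ℕ) : ℝ) ^ 6 * Real.log ((r * J : ℕ) : ℝ) / ((r ^ 4 : ℕ) : ℝ) ^ 2 ≤
      bH J / (r : ℝ) ^ 2 := by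
  have hr0 : (0 : ℝ) < r := by exact_mod_cast hr
  have hJ0 : (0 : ℝ) < J := by exact_mod_cast hJ
  unfold bH
  push_cast
  rw [Real.log_mul hr0.ne' hJ0.ne']
  have h1 : 1139 / 1000000000 * ((r : ℝ) * J) ^ 6 * (Real.log r + Real.log J) / ((r : ℝ) ^ 4) ^ 2 =
      1139 / 1000000000 * (J : ℝ) ^ 6 * (Real.log r + Real.log J) / (r : ℝ) ^ 2 := by
    field_simp
  rw [h1]
  apply div_le_div_of_nonneg_right _ (by positivity)
  have h3 : 2278 * (Real.log r + Real.log J) ≤ 2279 * Real.log J := by linarith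
  calc 1139 / 1000000000 * (J : ℝ) ^ 6 * (Real.log r + Real.log J)
      = (J : ℝ) ^ 6 / 2000000000 * (2278 * (Real.log r + Real.log J)) := by ring
    _ ≤ (J : ℝ) ^ 6 / 2000000000 * (2279 * Real.log J) := by gcongr
    _ = _ := by ring

private lemma phi_le (r : ℕ) (hr : 1 ≤ r) (J : ℕ) (hJ : 2 ≤ J) (ε v : ℝ) (hε : 0 < ε)
    (hlog : 2278 * Real.log r ≤ Real.log J) :
    phi ε J v ≤ phq (r ^ 4) (ε / (2 * (r : ℝ) ^ 8)) (r * J) v := by
  have hr0 : (0 : ℝ) < r := by exact_mod_cast hr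
  have hJ0 : (0 : ℝ) < J := by
    have : 0 < J := by omega
    exact_mod_cast this
  have hlr : 0 ≤ Real.log r := Real.log_nonneg (by exact_mod_cast hr)
  have hlJ : 0 < Real.log J := Real.log_pos (by exact_mod_cast hJ)
  unfold phi phq
  push_cast
  rw [Real.log_mul hr0.ne' hJ0.ne']
  have h1 : 2 / 1125 * ((r : ℝ) * J) ^ 4 / (r : ℝ) ^ 4 = 2 / 1125 * (J : ℝ) ^ 4 := by
    field_simp
  have h2 : ε / (2 * (r : ℝ) ^ 8) * ((r : ℝ) * J) ^ 8 * (Real.log r + Real.log J) =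
      ε * (J : ℝ) ^ 8 * ((Real.log r + Real.log J) / 2) := by
    field_simp
  rw [h1, h2]
  have h3 : v ^ 2 / (4 * (Real.log r + Real.log J)) ≤ v ^ 2 / (4 * Real.log J) := by
    apply div_le_div_of_nonneg_left (by positivity) (by positivity)
    linarith
  have h4 : ε * (J : ℝ) ^ 8 * ((Real.log r + Real.log J) / 2) ≤ ε * (J : ℝ) ^ 8 * Real.log J := by
    apply mul_le_mul_of_nonneg_left _ (by positivity)
    linarith
  linarith

theorem pf_FTF (hRANK : T_RANK) (hMIN : Pool.Agent.H25.EE.T_MIN) (hDEGH : T_DEGH) (hUPP : T_UPP)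
    (hEVD : T_EVD) : T_FTF := by
  intro O X0 π ε hε
  have hr := π.hr
  have hr0 : (0 : ℝ) < π.r := by exact_mod_cast hr
  obtain ⟨J1, h1⟩ := hRANK O X0 π
  obtain ⟨J2, h2⟩ := hDEGH O X0 π
  obtain ⟨J3, h3⟩ := hUPP O X0 π (ε / (2 * (π.r : ℝ) ^ 8)) (by positivity)
  obtain ⟨J4, h4⟩ := Filter.eventually_atTop.1
    ((Real.tendsto_log_atTop.comp tendsto_natCast_atTop_atTop).eventually_ge_atTop
      (2278 * Real.log π.r))
  refine ⟨max (max J1 J2) (max J3 (max J4 2)), fun J hJ u v hV α hα => ?_⟩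
  have hJ1 : J1 ≤ J := le_trans (le_trans (le_max_left _ _) (le_max_left _ _)) hJ
  have hJ2 : J2 ≤ J := le_trans (le_trans (le_max_right _ _) (le_max_left _ _)) hJ
  have hJ3 : J3 ≤ J := le_trans (le_trans (le_max_left _ _) (le_max_right _ _)) hJ
  have hJ4 : J4 ≤ J :=
    le_trans (le_trans (le_trans (le_max_left _ _) (le_max_right _ _)) (le_max_right _ _)) hJ
  have hJ5 : 2 ≤ J :=
    le_trans (le_trans (le_trans (le_max_right _ _) (le_max_right _ _)) (le_max_right _ _)) hJ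
  have hlog : 2278 * Real.log π.r ≤ Real.log J := h4 J hJ4
  have hrJ : J ≤ π.r * J := Nat.le_mul_of_pos_left J (by omega)
  have hα' : ‖α - X0‖ ≤ Real.exp (-(thq (qq π) (π.r * J))) := by
    refine hα.trans (Real.exp_le_exp.2 (neg_le_neg ?_))
    exact thq_le π.r hr J (by omega) hlog
  classical
  obtain ⟨g, hg, hdet⟩ := hMIN {a // a ∈ Ix (t0 π) (π.r * J)} {b // b ∈ Ix (t1 π) (π.r * J)}
    (fun a b => ev (mm π u v (π.r * J) a.1 b.1) α) (by
      intro c hc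
      funext a
      have h := h1 (π.r * J) (hJ1.trans hrJ) u v hV α hα'
        (fun a => if h : a ∈ Ix (t0 π) (π.r * J) then c ⟨a, h⟩ else 0) (by
          intro b hb
          rw [← Finset.sum_coe_sort, ← hc ⟨b, hb⟩]
          refine Finset.sum_congr rfl fun a _ => ?_
          rw [dif_pos a.2]) a.1 a.2
      simpa [dif_pos a.2] using h)
  obtain ⟨hd, hl⟩ := h2 (π.r * J) (hJ2.trans hrJ) u v hV g hg
  refine ⟨DD π u v (π.r * J) g, ?_, ?_, ?_, ?_⟩
  · refine hd.trans (le_of_eq ?_)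
    unfold bN qq
    push_cast
    field_simp
  · refine hl.trans (Real.exp_le_exp.2 ?_)
    exact hgt_le π.r hr J (by omega) hlog
  · rw [hEVD]
    exact hdet
  · intro s hs x hx
    refine (h3 (π.r * J) (hJ3.trans hrJ) u v hV g s hs x hx).trans
      (Real.exp_le_exp.2 (neg_le_neg ?_))
    exact phi_le π.r hr J hJ5 ε s hε hlog

end Pool.Agent.H33.EM.FTF
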